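import Pool.Agent.helper25.TW.Spec

/-!
# Project TWO, row SUM: the expected number of bad sites
-/

set_option autoImplicit false

namespace TP.TW

open DP MeasureTheory Finset

lemma SUM_box (D : Finset V) (τ : ℤ × ℤ) (R : ℕ) (w : V) :
    #(D.filter fun v => sd (v.1 + τ.1, v.2 + τ.2) w ≤ R) ≤ (2 * R + 1) ^ 2 := by
  have h : #(D.filter fun v => sd (v.1 + τ.1, v.2 + τ.2) w ≤ R) ≤
      #(Icc (w.1 - R) (w.1 + R) ×ˢ Icc (w.2 - R) (w.2 + R)) := by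
    refine card_le_card_of_injOn (fun v => (v.1 + τ.1, v.2 + τ.2)) ?_ ?_
    · intro v hv
      have h1 := (mem_filter.mp (mem_coe.mp hv)).2
      unfold sd at h1
      rw [max_le_iff] at h1
      obtain ⟨h2, h3⟩ := h1
      simp only at h2 h3
      rw [mem_coe, mem_product, mem_Icc, mem_Icc]
      refine ⟨⟨?_, ?_⟩, ?_, ?_⟩ <;> simp only <;> omega
    · intro v _ v' _ he
      simp only [Prod.mk.injEq] at he
      obtain ⟨h2, h3⟩ := he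
      refine Prod.ext ?_ ?_ <;> omega
  refine h.trans (le_of_eq ?_)
  rw [card_product, Int.card_Icc, Int.card_Icc]
  have e1 : (w.1 + (R : ℤ) + 1 - (w.1 - R)).toNat = 2 * R + 1 := by omega
  have e2 : (w.2 + (R : ℤ) + 1 - (w.2 - R)).toNat = 2 * R + 1 := by omega
  rw [e1, e2]
  ring

lemma SUM_dc (D S : Finset V) (τ : ℤ × ℤ) (R : ℕ) :
    ∑ v₀ ∈ D, #(S.filter fun w => sd (v₀.1 + τ.1, v₀.2 + τ.2) w ≤ R) ≤ #S * (2 * R + 1) ^ 2 := by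
  simp_rw [card_filter]
  rw [sum_comm]
  have h1 : ∀ w ∈ S, (∑ v₀ ∈ D, if sd (v₀.1 + τ.1, v₀.2 + τ.2) w ≤ R then 1 else 0)
      ≤ (2 * R + 1) ^ 2 := by
    intro w _
    rw [← card_filter]
    exact SUM_box D τ R w
  have h2 := sum_le_card_nsmul S _ _ h1
  rwa [smul_eq_mul] at h2

lemma SUM_log (n : ℕ) (hn : 2 ≤ n) : (1 : ℝ) ≤ 2 * Real.log n ∧
    ((Nat.log 2 n + 1 : ℕ) : ℝ) ≤ 4 * Real.log n := by
  have hl2 : (1 : ℝ) / 2 < Real.log 2 := by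
    have := Real.log_two_gt_d9
    linarith
  have hn' : (2 : ℝ) ≤ n := by exact_mod_cast hn
  have h1 : Real.log 2 ≤ Real.log n := Real.log_le_log (by norm_num) hn'
  have h2 : (Nat.log 2 n : ℝ) * Real.log 2 ≤ Real.log n := by
    rw [← Real.log_pow]
    refine Real.log_le_log (by positivity) ?_
    exact_mod_cast Nat.pow_log_le_self 2 (by omega)
  have h3 : (0 : ℝ) ≤ (Nat.log 2 n : ℝ) := Nat.cast_nonneg _
  refine ⟨by linarith, ?_⟩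
  push_cast
  nlinarith

lemma SUM_prob : IsProbabilityMeasure DP.P1 := by
  unfold DP.P1
  infer_instance

theorem SUM (cv : CV_stmt) (spr : SPR_stmt) (lcr : LCR_stmt) : SUM_stmt := by
  have hprob := SUM_prob
  obtain ⟨C₀, hC₀, hSPR⟩ := spr
  refine ⟨2 * 401 ^ 2 + 8 * 801 ^ 2 * 81 * C₀, by positivity, ?_⟩
  intro n S hn hS
  set D : Finset V := (univ : Finset (Fin n × Fin n)).image phi with hD
  set I : Finset (ℕ × Bool × ℤ × ℤ) := range (Nat.log 2 n + 1) ×ˢ (univ : Finset Bool) ×ˢ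
    Icc (-400 : ℤ) 400 ×ˢ Icc (-400 : ℤ) 400 with hI
  have hIc : (#I : ℝ) = ((Nat.log 2 n + 1 : ℕ) : ℝ) * (2 * 801 ^ 2) := by
    have e0 : ((400 : ℤ) + 1 - (-400)).toNat = 801 := by decide
    rw [hI, card_product, card_product, card_product, card_range, Int.card_Icc, e0, card_univ,
      Fintype.card_bool]
    push_cast
    ring
  have h1 : ∀ v₀ ∈ D, Pr (Ev fun c => BAD c S v₀) ≤ (#(S.filter fun w => sd v₀ w ≤ 200) : ℝ) +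
      ∑ i ∈ I, C₀ * #(S.filter fun w => sd (v₀.1 + 2 ^ i.1 * i.2.2.1, v₀.2 + 2 ^ i.1 * i.2.2.2) w
        ≤ 3 * 2 ^ i.1 + 1) / (((2 ^ i.1 : ℕ) : ℝ)) ^ 2 := by
    intro v₀ hv₀
    have hnn : 0 ≤ ∑ i ∈ I, C₀ * #(S.filter fun w => sd (v₀.1 + 2 ^ i.1 * i.2.2.1,
        v₀.2 + 2 ^ i.1 * i.2.2.2) w ≤ 3 * 2 ^ i.1 + 1) / (((2 ^ i.1 : ℕ) : ℝ)) ^ 2 :=
      sum_nonneg fun i _ => by positivity
    by_cases hw : ∃ w ∈ S, sd v₀ w ≤ 200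
    · obtain ⟨w, hwS, hw⟩ := hw
      have h2 : 1 ≤ #(S.filter fun w => sd v₀ w ≤ 200) :=
        card_pos.mpr ⟨w, mem_filter.mpr ⟨hwS, hw⟩⟩
      have h3 : (1 : ℝ) ≤ (#(S.filter fun w => sd v₀ w ≤ 200) : ℝ) := by exact_mod_cast h2
      have h4 : Pr (Ev fun c => BAD c S v₀) ≤ 1 := by
        unfold DP.Pr
        exact measureReal_le_one
      linarith
    · have hsub : Ev (fun c => BAD c S v₀) ⊆ ⋃ i ∈ I, Ev (fun c => SR c i.2.1 S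
          (v₀.1 + 2 ^ i.1 * i.2.2.1, v₀.2 + 2 ^ i.1 * i.2.2.2) (2 ^ i.1)) := by
        intro β hβ
        have hβ' : BAD (col β) S v₀ := hβ
        rcases cv n (col β) S v₀ hn hS hv₀ hβ' with h5 | ⟨s, hs, k, p, hp, q, hq, hSR⟩
        · exact absurd h5 hw
        · rw [Set.mem_iUnion₂]
          refine ⟨(s, k, p, q), ?_, hSR⟩
          rw [hI, mem_product, mem_product, mem_product]
          exact ⟨hs, mem_univ _, hp, hq⟩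
      have h6 : Pr (Ev fun c => BAD c S v₀) ≤ ∑ i ∈ I, Pr (Ev (fun c => SR c i.2.1 S
          (v₀.1 + 2 ^ i.1 * i.2.2.1, v₀.2 + 2 ^ i.1 * i.2.2.2) (2 ^ i.1))) := by
        unfold DP.Pr
        refine (measureReal_mono hsub (measure_ne_top _ _)).trans ?_
        exact measureReal_biUnion_finset_le I _
      have h7 : ∑ i ∈ I, Pr (Ev (fun c => SR c i.2.1 S
          (v₀.1 + 2 ^ i.1 * i.2.2.1, v₀.2 + 2 ^ i.1 * i.2.2.2) (2 ^ i.1))) ≤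
          ∑ i ∈ I, C₀ * #(S.filter fun w => sd (v₀.1 + 2 ^ i.1 * i.2.2.1, v₀.2 + 2 ^ i.1 * i.2.2.2) w
        ≤ 3 * 2 ^ i.1 + 1) / (((2 ^ i.1 : ℕ) : ℝ)) ^ 2 :=
        sum_le_sum fun i _ => hSPR i.2.1 S _ (2 ^ i.1) Nat.one_le_two_pow
      have h8 : (0 : ℝ) ≤ (#(S.filter fun w => sd v₀ w ≤ 200) : ℝ) := Nat.cast_nonneg _
      linarith
  have h9 : ∑ v₀ ∈ D, (#(S.filter fun w => sd v₀ w ≤ 200) : ℝ) ≤ #S * 401 ^ 2 := by
    have h10 := SUM_dc D S (0, 0) 200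
    simp only [add_zero] at h10
    have h11 : ((∑ v₀ ∈ D, #(S.filter fun w => sd v₀ w ≤ 200) : ℕ) : ℝ)
        ≤ ((#S * (2 * 200 + 1) ^ 2 : ℕ) : ℝ) := by exact_mod_cast h10
    push_cast at h11
    norm_num at h11 ⊢
    exact h11
  have h12 : ∀ i ∈ I, ∑ v₀ ∈ D, C₀ * #(S.filter fun w => sd (v₀.1 + 2 ^ i.1 * i.2.2.1,
      v₀.2 + 2 ^ i.1 * i.2.2.2) w ≤ 3 * 2 ^ i.1 + 1) / (((2 ^ i.1 : ℕ) : ℝ)) ^ 2
      ≤ 81 * C₀ * #S := by
    intro i _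
    have h13 := SUM_dc D S (2 ^ i.1 * i.2.2.1, 2 ^ i.1 * i.2.2.2) (3 * 2 ^ i.1 + 1)
    simp only at h13
    have h14 : (2 * (3 * 2 ^ i.1 + 1) + 1) ^ 2 ≤ 81 * (2 ^ i.1) ^ 2 := by
      have h15 : 1 ≤ 2 ^ i.1 := Nat.one_le_two_pow
      nlinarith
    have h16 : (∑ v₀ ∈ D, (#(S.filter fun w => sd (v₀.1 + 2 ^ i.1 * i.2.2.1,
      v₀.2 + 2 ^ i.1 * i.2.2.2) w ≤ 3 * 2 ^ i.1 + 1) : ℝ)) ≤ #S * (81 * (((2 ^ i.1 : ℕ) : ℝ)) ^ 2) := by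
      have h17 := h13.trans (Nat.mul_le_mul_left (#S) h14)
      exact_mod_cast h17
    have hpos : (0 : ℝ) < (((2 ^ i.1 : ℕ) : ℝ)) ^ 2 := by positivity
    rw [← sum_div, ← mul_sum, div_le_iff₀ hpos]
    calc C₀ * ∑ v₀ ∈ D, (#(S.filter fun w => sd (v₀.1 + 2 ^ i.1 * i.2.2.1,
          v₀.2 + 2 ^ i.1 * i.2.2.2) w ≤ 3 * 2 ^ i.1 + 1) : ℝ)
        ≤ C₀ * (#S * (81 * (((2 ^ i.1 : ℕ) : ℝ)) ^ 2)) := mul_le_mul_of_nonneg_left h16 hC₀.le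
      _ = 81 * C₀ * #S * (((2 ^ i.1 : ℕ) : ℝ)) ^ 2 := by ring
  have h18 : ∑ v₀ ∈ D, Pr (Ev fun c => BAD c S v₀) ≤ #S * 401 ^ 2 + #I * (81 * C₀ * #S) := by
    refine (sum_le_sum h1).trans ?_
    rw [sum_add_distrib, sum_comm]
    refine add_le_add h9 ?_
    have h19 := sum_le_card_nsmul I _ _ h12
    rwa [nsmul_eq_mul] at h19
  obtain ⟨hlog1, hlog2⟩ := SUM_log n hn
  refine h18.trans ?_
  rw [hIc]
  have hS0 : (0 : ℝ) ≤ #S := Nat.cast_nonneg _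
  have h20 : (#S : ℝ) * 401 ^ 2 ≤ 2 * 401 ^ 2 * #S * Real.log n := by
    have : (#S : ℝ) * 401 ^ 2 * 1 ≤ #S * 401 ^ 2 * (2 * Real.log n) :=
      mul_le_mul_of_nonneg_left hlog1 (by positivity)
    linarith
  have h21 : ((Nat.log 2 n + 1 : ℕ) : ℝ) * (2 * 801 ^ 2) * (81 * C₀ * #S) ≤
      8 * 801 ^ 2 * 81 * C₀ * #S * Real.log n := by
    have h22 : ((Nat.log 2 n + 1 : ℕ) : ℝ) * ((2 * 801 ^ 2) * (81 * C₀ * #S)) ≤
        4 * Real.log n * ((2 * 801 ^ 2) * (81 * C₀ * #S)) :=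
      mul_le_mul_of_nonneg_right hlog2 (by positivity)
    linarith
  linarith

end TP.TW
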